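import Pool.Agent.H76.CL.Form

/-!
# Chen's theorem for prime tuples, uniformly in the shifts and with the singular series
-/

set_option autoImplicit false

namespace Pool.Agent.Results.MP_68a45e_nt.ChenTuples

open Finset Pool.Agent.H76.CL

/-- the roots of the forms `n + h l` modulo `p` -/
theorem rts_shift {k : ℕ} (h : Fin k → ℕ) {p : ℕ} (hp : p.Prime) :
    (rts (univ.image (fun l : Fin k => ((1 : ℤ), (h l : ℤ)))) p).card ≤ (univ.image (fun l => h l % p)).card := by
  classical
  refine (card_le_card (t := (univ.image (fun l => h l % p)).image (fun c => (p - c) % p)) ?_).trans card_image_le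
  intro m hm
  unfold rts at hm
  rw [mem_filter, mem_range] at hm
  obtain ⟨h1, g, hg, h2⟩ := hm
  rw [mem_image] at hg
  obtain ⟨l, -, rfl⟩ := hg
  rw [mem_image]
  refine ⟨h l % p, mem_image_of_mem _ (mem_univ _), ?_⟩
  have h3 : p ∣ m + h l := by
    have e : val ((1 : ℤ), (h l : ℤ)) (m : ℕ) = ((m + h l : ℕ) : ℤ) := by
      show (1 : ℤ) * m + h l = _
      push_cast
      ring
    rw [e] at h2
    exact_mod_cast h2
  have h4 : h l % p < p := Nat.mod_lt _ hp.pos
  have h5 : p ∣ m + h l % p := by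
    rw [Nat.dvd_iff_mod_eq_zero] at h3 ⊢
    rwa [Nat.add_mod_mod]
  obtain ⟨t, ht⟩ := h5
  rcases Nat.eq_zero_or_pos (h l % p) with h0 | h0
  · have : m = 0 := by
      rw [h0, add_zero] at ht
      have : t = 0 := by
        by_contra hne
        have : p * 1 ≤ p * t := Nat.mul_le_mul_left _ (Nat.pos_of_ne_zero hne)
        omega
      subst this
      omega
    show (p - h l % p) % p = m
    rw [h0, Nat.sub_zero, Nat.mod_self, this]
  · have ht1 : t = 1 := by
      have h6 : p * t < p * 2 := by omega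
      have h7 : t < 2 := Nat.lt_of_mul_lt_mul_left h6
      have h8 : t ≠ 0 := by
        rintro rfl
        omega
      omega
    subst ht1
    show (p - h l % p) % p = m
    rw [Nat.mod_eq_of_lt (by omega)]
    omega

/-- **Chen's theorem for prime tuples.**  Let `k ≥ 2`, `K ≥ 1` and `θ > 0`.  There are `c, ε > 0`, `r` and `x₀` such
that for all `x ≥ x₀` and `y ≤ (1 - θ) x`, for all tuples of `k` different integers `0 ≤ h l ≤ x ^ K` and all `i ≠ j`
with `h i, h j ≤ K x`: for at least `c S x / (log x) ^ k` of the integers `y < n ≤ x` the number `n + h i` is prime,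
`n + h j` is a prime or a product of two primes, both `≥ x ^ (1 / 8)`, and all the `n + h l` have at most `r` prime
factors, all of them `≥ x ^ ε`.  Here `S` is the product of `(1 - w(p) / p) / (1 - 1 / p) ^ k` over the primes `p ≤ x`,
with `w(p)` the number of residue classes modulo `p` occupied by the `h l`. -/
theorem result : ∀ k K : ℕ, 2 ≤ k → 1 ≤ K → ∀ θ : ℝ, 0 < θ →
    ∃ c ε : ℝ, 0 < c ∧ 0 < ε ∧ ∃ r x₀ : ℕ, ∀ x : ℕ, x₀ ≤ x → ∀ y : ℕ, (y : ℝ) + θ * x ≤ x →
      ∀ h : Fin k → ℕ, Function.Injective h → (∀ l, h l ≤ x ^ K) →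
      ∀ i j : Fin k, i ≠ j → h i ≤ K * x → h j ≤ K * x →
        c * (∏ p ∈ (Icc 1 x).filter Nat.Prime,
            (1 - (((univ.image (fun l => h l % p)).card : ℕ) : ℝ) / p) / (1 - 1 / (p : ℝ)) ^ k) *
          (x / Real.log x ^ k) ≤
          ({n : ℕ | y < n ∧ n ≤ x ∧ (n + h i).Prime ∧
            (n + h j).primeFactorsList.length ≤ 2 ∧ (∀ q ∈ (n + h j).primeFactors, (x : ℝ) ^ (1 / 8 : ℝ) ≤ q) ∧
            ∀ l, (n + h l).primeFactorsList.length ≤ r ∧
              ∀ q ∈ (n + h l).primeFactors, (x : ℝ) ^ ε ≤ q}.ncard : ℝ) := by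
  classical
  intro k K hk hK θ hθ
  obtain ⟨ε, c, hε0, hε1, hc, r, B₀, hB₀⟩ := chen_pos k K hk hK θ hθ
  obtain ⟨c', hc', hform⟩ := sing_form k
  refine ⟨c * c', ε, by positivity, hε0, r, B₀ + k + 4, ?_⟩
  intro x hx y hy h hinj hsz i j hij hi hj
  set ν : ℕ → ℕ := fun p => (univ.image (fun l => h l % p)).card with hν
  have hνp : ∀ p : ℕ, p.Prime → ν p ≤ p := by
    intro p hp
    have h1 : univ.image (fun l => h l % p) ⊆ range p := by
      intro c hc
      rw [mem_image] at hc
      obtain ⟨l, -, rfl⟩ := hc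
      exact mem_range.2 (Nat.mod_lt _ hp.pos)
    have := card_le_card h1
    rwa [card_range] at this
  have hνk : ∀ p : ℕ, ν p ≤ k := by
    intro p
    have : (univ.image (fun l => h l % p)).card ≤ (univ : Finset (Fin k)).card := card_image_le
    rwa [card_univ, Fintype.card_fin] at this
  by_cases hadm : ∀ q : ℕ, q.Prime → ∃ a : ℕ, ∀ l, ¬ q ∣ a + h l
  swap
  · push Not at hadm
    obtain ⟨q, hq, hqa⟩ := hadm
    have h1 : ν q = q := by
      have h2 : univ.image (fun l => h l % q) = range q := by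
        ext c
        rw [mem_image, mem_range]
        constructor
        · rintro ⟨l, -, rfl⟩
          exact Nat.mod_lt _ hq.pos
        · intro hc
          obtain ⟨l, hl⟩ := hqa (q - c)
          refine ⟨l, mem_univ _, ?_⟩
          have h3 : h l ≡ c [MOD q] := by
            have h4 : q - c + h l ≡ q - c + c [MOD q] := by
              rw [Nat.sub_add_cancel hc.le]
              have h5 : q ≡ 0 [MOD q] := by
                rw [Nat.modEq_zero_iff_dvd]
              exact ((Nat.modEq_zero_iff_dvd).2 hl).trans h5.symm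
            exact Nat.ModEq.add_left_cancel' _ h4
          have := h3
          rw [Nat.ModEq, Nat.mod_eq_of_lt hc] at this
          exact this
      rw [hν]
      show (univ.image (fun l => h l % q)).card = q
      rw [h2, card_range]
    have h2 := prod_zero (x := x) hq (by have := hνk q; omega) (ρ := ν) h1 k
    show c * c' * (∏ p ∈ (Icc 1 x).filter Nat.Prime, (1 - ((ν p : ℕ) : ℝ) / p) / (1 - 1 / (p : ℝ)) ^ k) * _ ≤ _
    rw [h2, mul_zero, zero_mul]
    exact Nat.cast_nonneg _
  set F : Fin k → ℤ × ℤ := fun l => ((1 : ℤ), (h l : ℤ)) with hF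
  set G : Finset (ℤ × ℤ) := univ.image F with hG
  have hmem : ∀ l, F l ∈ G := fun l => mem_image_of_mem _ (mem_univ _)
  have hval : ∀ l (n : ℕ), val (F l) n = ((n + h l : ℕ) : ℤ) := by
    intro l n
    show (1 : ℤ) * n + h l = _
    push_cast
    ring
  have hinj' : Function.Injective F := by
    intro a b hab
    rw [hF] at hab
    simp only [Prod.mk.injEq, true_and, Nat.cast_inj] at hab
    exact hinj hab
  have hmain := (hB₀ x (by omega) y hy G (by
      refine card_image_le.trans ?_
      rw [card_univ, Fintype.card_fin]) (F i) (hmem i) (F j) (hmem j) (fun he => hij (hinj' he))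
    (by
      intro f hf
      rw [hG, mem_image] at hf
      obtain ⟨l, -, rfl⟩ := hf
      refine ⟨le_rfl, ?_, ?_⟩
      · show (1 : ℤ) ≤ K
        exact_mod_cast hK
      · show |((h l : ℕ) : ℤ)| ≤ (x : ℤ) ^ K
        rw [Nat.abs_cast]
        exact_mod_cast hsz l)
    (by
      show |((h i : ℕ) : ℤ)| ≤ K * x
      rw [Nat.abs_cast]
      exact_mod_cast hi)
    (by
      show |((h j : ℕ) : ℤ)| ≤ K * x
      rw [Nat.abs_cast]
      exact_mod_cast hj)
    (by
      show (1 : ℤ) ≤ 1 + (h i : ℤ)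
      omega)
    (by
      show (1 : ℤ) ≤ 1 + (h j : ℤ)
      omega)
    (by
      show (1 : ℤ) * (h j : ℤ) - 1 * (h i : ℤ) ≠ 0
      intro h0
      have : h i = h j := by omega
      exact hij (hinj this))
    (by
      intro p hp
      obtain ⟨a, ha⟩ := hadm p hp
      refine ⟨a, fun f hf => ?_⟩
      rw [hG, mem_image] at hf
      obtain ⟨l, -, rfl⟩ := hf
      rw [hval]
      intro hd
      exact ha l (by exact_mod_cast hd))).2
  have hser : c * c' * (∏ p ∈ (Icc 1 x).filter Nat.Prime, (1 - ((ν p : ℕ) : ℝ) / p) / (1 - 1 / (p : ℝ)) ^ k) *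
      (x / Real.log x ^ k) ≤ c * x * SS G x := by
    have h1 := hform x (by omega) ν hνp
    have h2 := SS_mono (G := G) (B := x) (ν := ν) (fun p hp => rts_shift h hp) hνp
    calc c * c' * (∏ p ∈ (Icc 1 x).filter Nat.Prime, (1 - ((ν p : ℕ) : ℝ) / p) / (1 - 1 / (p : ℝ)) ^ k) *
        (x / Real.log x ^ k) = c * (c' * (∏ p ∈ (Icc 1 x).filter Nat.Prime,
          (1 - ((ν p : ℕ) : ℝ) / p) / (1 - 1 / (p : ℝ)) ^ k) * (x / Real.log x ^ k)) := by ring
      _ ≤ c * (x * ∏ p ∈ (Icc 1 x).filter Nat.Prime, (1 - ((ν p : ℕ) : ℝ) / p)) :=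
          mul_le_mul_of_nonneg_left h1 hc.le
      _ ≤ c * (x * SS G x) := by
          apply mul_le_mul_of_nonneg_left _ hc.le
          exact mul_le_mul_of_nonneg_left h2 (Nat.cast_nonneg _)
      _ = _ := by ring
  refine (hser.trans hmain).trans (card_le_ncard x ?_ ?_)
  · intro n hn
    unfold Sys at hn
    rw [mem_filter, mem_Ioc] at hn
    obtain ⟨⟨h1, h2⟩, h3, h4, h5, h6⟩ := hn
    obtain ⟨i1, i2, i3⟩ := nat_val (hval i n)
    obtain ⟨j1, j2, j3⟩ := nat_val (hval j n)
    rw [i1] at h3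
    rw [j1] at h4
    refine ⟨h1, h2, h3, h4, ?_, ?_⟩
    · intro q hq
      exact h5 q (Nat.prime_of_mem_primeFactors hq) ((j3 q).2 (Nat.dvd_of_mem_primeFactors hq))
    · intro l
      obtain ⟨l1, l2, l3⟩ := nat_val (hval l n)
      obtain ⟨g1, g2⟩ := h6 (F l) (hmem l)
      rw [l2] at g1
      exact ⟨g1, fun q hq => g2 q (Nat.prime_of_mem_primeFactors hq) ((l3 q).2 (Nat.dvd_of_mem_primeFactors hq))⟩
  · intro n hn
    exact hn.2.1

end Pool.Agent.Results.MP_68a45e_nt.ChenTuples
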