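import Pool.Agent.H75.AS.Fin5

/-!
# A positive proportion of the prime tuples conjecture inside every set of `lam log N` shifts

Let `k ≥ 1` and let `lam > 0` be as small as we like. Inside EVERY set `A` of at least
`lam (φ(q)/q) log N` integers which lie in one residue class modulo `q` and in one interval of length
`N / 3`, with no further restriction on their size or their structure, the `(k + 1)`-element patterns
`T` for which the number of prime tuples with the pattern `T` up to `N` is at least `κ` times the
Hardy-Littlewood prediction carry at least the proportion `κ` of the sum of the Hardy-Littlewood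
constants of all the `(k + 1)`-element patterns of `A`, and this sum is at least
`κ (q/φ(q))^k |A|^(k+1)`. The constant `κ > 0` depends only on `k` and `lam`.

Such a statement was known only for shifts up to a power of `log N`.  The new case is that of shifts as large
as a power of `N`, or `N / 3`, which are arbitrarily sparse.

Method: the classes modulo `W`, the product of the primes up to `log N / 1000` (without a sparse set of primes which
covers the possible exceptional moduli); a Selberg-type weight which attracts primes, with exactly as
many positions as there are shifts in the class; equidistribution of the primes in progressions with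
a difference divisible by `W` (`Pool.Agent.H378R2`); second moments.
-/

set_option autoImplicit false

open Finset

namespace Pool.Agent.Results.MP_68a45e_nt.EverySparseSetOfShifts

/-- the number of residue classes modulo `p` occupied by `T` -/
def nu (T : Finset ℕ) (p : ℕ) : ℕ := (T.image (· % p)).card

/-- `T` misses a residue class modulo every prime -/
def Admissible (T : Finset ℕ) : Prop := ∀ p : ℕ, p.Prime → nu T p < p

/-- the factor at `p` of the Hardy-Littlewood constant of the pattern `T` -/
noncomputable def factor (T : Finset ℕ) (p : ℕ) : ℝ :=
  (1 - (nu T p : ℝ) / p) / (1 - 1 / (p : ℝ)) ^ T.card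

/-- the Hardy-Littlewood constant of the pattern `T` (product over all primes) -/
noncomputable def C (T : Finset ℕ) : ℝ := ∏' p : Nat.Primes, factor T p

open Classical in
/-- the number of the primes `p ≤ N` such that all `p + (t - min T)`, `t ∈ T`, are prime, `0` if `T`
is not admissible; this is `π_P(N)` for `T = {0, m_1, ..., m_k}` -/
noncomputable def primeTuples (T : Finset ℕ) (N : ℕ) : ℕ :=
  if Admissible T then
    ((Icc 1 N).filter (fun p => ∀ t ∈ T, (p + (t - sInf (T : Set ℕ))).Prime)).card else 0

open Classical in
/-- The product `C T` converges, and it is positive for admissible `T`. For all `k ≥ 1` and `lam > 0`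
there is `κ > 0` such that for every `q ≥ 1`, all large `N` and every set `A` of at least
`lam (φ(q)/q) log N` integers in one residue class modulo `q` and in an interval `(z, z + N / 3]`: the
sum of `C T` over the `(k + 1)`-element subsets `T` of `A` is at least `κ (q/φ(q))^k |A|^(k+1)`, and
the admissible `T` with `primeTuples T N ≥ κ C(T) ∫_2^N dt / (log t)^(k+1)` carry at least the
proportion `κ` of this sum. -/
theorem result :
    (∀ T : Finset ℕ, HasProd (fun p : Nat.Primes => factor T p) (C T) ∧
      (Admissible T → 0 < C T)) ∧
    ∀ k : ℕ, 1 ≤ k → ∀ lam : ℝ, 0 < lam → ∃ κ : ℝ, 0 < κ ∧ ∀ q : ℕ, 1 ≤ q →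
      ∃ N₀ : ℕ, ∀ N : ℕ, N₀ ≤ N → ∀ (c z : ℕ) (A : Finset ℕ),
        (∀ a ∈ A, a ≡ c [MOD q] ∧ z < a ∧ 3 * a ≤ 3 * z + N) →
        lam * (Nat.totient q / q) * Real.log N ≤ A.card →
        κ * ((q / Nat.totient q) ^ k * (A.card : ℝ) ^ (k + 1)) ≤
          ∑ T ∈ A.powersetCard (k + 1), C T ∧
        κ * ∑ T ∈ A.powersetCard (k + 1), C T ≤
          ∑ T ∈ (A.powersetCard (k + 1)).filter (fun T => Admissible T ∧
            κ * C T * (∫ t in (2 : ℝ)..N, 1 / Real.log t ^ (k + 1)) ≤ primeTuples T N), C T := by
  refine ⟨fun T => ⟨Pool.Agent.H387R2.Uni.CT_hasProd T, fun hT => ?_⟩, fun k hk lam hlam =>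
    Pool.Agent.H75.AS.mainFinal k hk hlam⟩
  change 0 < Pool.Agent.H387R2.Uni.CT T
  rw [← Pool.Agent.H387R2.Uni.CT_en]
  apply Pool.Agent.H386R2.HL.singularSeries_pos (Pool.Agent.H387R2.Uni.en_inj T)
  intro p hp
  rw [Pool.Agent.H387R2.Uni.nu_en]
  exact hT p hp

end Pool.Agent.Results.MP_68a45e_nt.EverySparseSetOfShifts
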