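import Pool.Agent.H75.SH.Asm

/-!
# The Hardy-Littlewood prediction with the sharp constant inside every set of `K log N` shifts

Let `k ≥ 1` and `0 < ε < 1`. Inside EVERY set `A` of at least `K (φ(q)/q) log N` integers which lie in one residue
class modulo `q` and in one interval of length `d N` (no further restriction on their size or their structure; `K, d`
depend only on `k, ε`), the numbers of prime tuples up to `N` with the `(k + 1)`-element patterns `T` of `A` sum up to at
least `(1 - ε)` times the sum of the Hardy-Littlewood predictions `C(T) ∫ dt / (log t)^(k+1)`, and the patterns `T`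
for which the number of prime tuples is at least `(1 - ε) C(T) ∫ dt / (log t)^(k+1)` carry a positive proportion `κ` of the
sum of all `C(T)`.

Method: primes up to `N` are counted with the right constant in every residue class modulo `W`, the product of the
primes up to `log N / 2000` without a sparse set of primes, which covers the exceptional moduli at finitely many
scales (a minorant of the sharp cutoff built from tents in the logarithmic scale); convexity in every class; sharp
upper bound of `C(T)` by the number of the classes modulo `W` in which `T` survives; sieve upper bound.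
-/

set_option autoImplicit false

open Finset

namespace Pool.Agent.Results.MP_68a45e_nt.SharpConstantInSetsOfShifts

/-- the number of residue classes modulo `p` occupied by `T` -/
def nu (T : Finset ℕ) (p : ℕ) : ℕ := (T.image (· % p)).card

/-- `T` misses a residue class modulo every prime -/
def Admissible (T : Finset ℕ) : Prop := ∀ p : ℕ, p.Prime → nu T p < p

/-- the factor at `p` of the Hardy-Littlewood constant of the pattern `T` -/
noncomputable def factor (T : Finset ℕ) (p : ℕ) : ℝ :=
  (1 - (nu T p : ℝ) / p) / (1 - 1 / (p : ℝ)) ^ T.card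

/-- the Hardy-Littlewood constant of the pattern `T` (product over all primes) -/
noncomputable def C (T : Finset ℕ) : ℝ := ∏' p : Nat.Primes, factor T p

open Classical in
/-- the number of the primes `p ≤ N` such that all `p + (t - min T)`, `t ∈ T`, are prime, `0` if `T`
is not admissible; this is `π_P(N)` for `T = {0, m_1, ..., m_k}` -/
noncomputable def primeTuples (T : Finset ℕ) (N : ℕ) : ℕ :=
  if Admissible T then
    ((Icc 1 N).filter (fun p => ∀ t ∈ T, (p + (t - sInf (T : Set ℕ))).Prime)).card else 0

open Classical in
/-- The product `C T` converges, and it is positive for admissible `T`. For all `k ≥ 1` and `0 < ε < 1`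
there are `K, d, κ > 0` such that for every `q ≥ 1`, all large `N` and every set `A` of at least
`K (φ(q)/q) log N` integers in one residue class modulo `q` and in an interval `(z, z + d N]`: the
sum of `C T` over the `(k + 1)`-element subsets `T` of `A` is at least `κ (q/φ(q))^k |A|^(k+1)`; the
sum of `primeTuples T N` is at least `(1 - ε)` times the sum of `C(T) ∫_2^N dt / (log t)^(k+1)`; and the
admissible `T` with `primeTuples T N ≥ (1 - ε) C(T) ∫_2^N dt / (log t)^(k+1)` carry at least the
proportion `κ` of the sum of `C T`. -/
theorem result :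
    (∀ T : Finset ℕ, HasProd (fun p : Nat.Primes => factor T p) (C T) ∧
      (Admissible T → 0 < C T)) ∧
    ∀ k : ℕ, 1 ≤ k → ∀ ε : ℝ, 0 < ε → ε < 1 → ∃ K d κ : ℝ, 0 < K ∧ 0 < d ∧ 0 < κ ∧
      ∀ q : ℕ, 1 ≤ q → ∃ N₀ : ℕ, ∀ N : ℕ, N₀ ≤ N → ∀ (c z : ℕ) (A : Finset ℕ),
        (∀ a ∈ A, a ≡ c [MOD q] ∧ z < a ∧ (a : ℝ) ≤ z + d * N) →
        K * (Nat.totient q / q) * Real.log N ≤ A.card →
        κ * ((q / Nat.totient q) ^ k * (A.card : ℝ) ^ (k + 1)) ≤
          ∑ T ∈ A.powersetCard (k + 1), C T ∧
        (1 - ε) * (∑ T ∈ A.powersetCard (k + 1), C T) *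
          (∫ t in (2 : ℝ)..N, 1 / Real.log t ^ (k + 1)) ≤
          ∑ T ∈ A.powersetCard (k + 1), (primeTuples T N : ℝ) ∧
        κ * ∑ T ∈ A.powersetCard (k + 1), C T ≤
          ∑ T ∈ (A.powersetCard (k + 1)).filter (fun T => Admissible T ∧
            (1 - ε) * C T * (∫ t in (2 : ℝ)..N, 1 / Real.log t ^ (k + 1)) ≤ primeTuples T N), C T := by
  refine ⟨fun T => ⟨Pool.Agent.H387R2.Uni.CT_hasProd T, fun hT => ?_⟩, fun k hk ε hε hε1 =>
    Pool.Agent.H75.SH.t_FIN Pool.Agent.H75.SH.main k hk ε hε hε1⟩
  change 0 < Pool.Agent.H387R2.Uni.CT T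
  rw [← Pool.Agent.H387R2.Uni.CT_en]
  apply Pool.Agent.H386R2.HL.singularSeries_pos (Pool.Agent.H387R2.Uni.en_inj T)
  intro p hp
  rw [Pool.Agent.H387R2.Uni.nu_en]
  exact hT p hp

end Pool.Agent.Results.MP_68a45e_nt.SharpConstantInSetsOfShifts
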