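import Pool.Agent.H76.NA.Sys

/-!
# Szemerédi's theorem, with narrow progressions, inside the sets of Chen's theorem for prime tuples
-/

set_option autoImplicit false

namespace Pool.Agent.Results.MP_68a45e_nt.SzemerediTuples

open Finset Pool.Agent.H76.CL Pool.Agent.H76.NA

/-- **Szemerédi's theorem for Chen type prime tuples.**  Let `k ≥ 2`, `K ≥ 1` and `θ > 0`.  There are `ε > 0` and `r`
such that for all `m` and `δ > 0` there are `C` and `x₀` with the following property.  Let `x ≥ x₀` and `y ≤ (1 - θ) x`,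
let `h 0, …, h (k - 1)` be different integers in `[0, x ^ K]` which do not occupy all residue classes modulo any prime,
let `i ≠ j` be such that `h i, h j ≤ K x`, and let `T` be the set of the integers `y < n ≤ x` for which `n + h i` is a
prime, `n + h j` is a prime or a product of two primes, both `≥ x ^ (1 / 9)`, and all the `n + h l` have at most `r`
prime factors, all of them `≥ x ^ ε`.  Then every subset `S` of `T` with at least `δ |T|` elements contains an
arithmetic progression of `m` terms with a difference `1 ≤ d ≤ (log x) ^ C`. -/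
theorem result : ∀ k K : ℕ, 2 ≤ k → 1 ≤ K → ∀ θ : ℝ, 0 < θ →
    ∃ ε : ℝ, 0 < ε ∧ ∃ r : ℕ, ∀ (m : ℕ) (δ : ℝ), 0 < δ → ∃ C x₀ : ℕ, ∀ x : ℕ, x₀ ≤ x → ∀ y : ℕ,
      (y : ℝ) + θ * x ≤ x →
      ∀ h : Fin k → ℕ, Function.Injective h → (∀ l, h l ≤ x ^ K) →
      (∀ q : ℕ, q.Prime → ∃ a : ℕ, ∀ l, ¬ q ∣ a + h l) →
      ∀ i j : Fin k, i ≠ j → h i ≤ K * x → h j ≤ K * x →
      ∀ T : Set ℕ, T = {n : ℕ | y < n ∧ n ≤ x ∧ (n + h i).Prime ∧
            (n + h j).primeFactorsList.length ≤ 2 ∧ (∀ q ∈ (n + h j).primeFactors, (x : ℝ) ^ (1 / 9 : ℝ) ≤ q) ∧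
            ∀ l, (n + h l).primeFactorsList.length ≤ r ∧
              ∀ q ∈ (n + h l).primeFactors, (x : ℝ) ^ ε ≤ q} →
      ∀ S : Set ℕ, S ⊆ T → δ * (T.ncard : ℝ) ≤ (S.ncard : ℝ) →
        ∃ a d : ℕ, 1 ≤ d ∧ (d : ℝ) ≤ Real.log x ^ C ∧ ∀ t < m, a + t * d ∈ S := by
  classical
  intro k K hk hK θ hθ
  obtain ⟨ε, hε0, r, hh⟩ := szem_lin k K hk hK θ hθ
  refine ⟨ε, hε0, r, fun m δ hδ => ?_⟩
  obtain ⟨C, B₀, hB₀⟩ := hh m δ hδ
  refine ⟨C, B₀ + 1, ?_⟩
  intro x hx y hy h hinj hsz hadm i j hij hi hj T hT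
  have hx1 : (1 : ℤ) ≤ x := by exact_mod_cast (by omega : 1 ≤ x)
  set F : Fin k → ℤ × ℤ := fun l => (1, (h l : ℤ)) with hF
  have hval : ∀ (l : Fin k) (n : ℕ), val (F l) n = ((n + h l : ℕ) : ℤ) := by
    intro l n
    show (1 : ℤ) * n + h l = _
    push_cast
    ring
  have habs : ∀ (l : Fin k) (n : ℕ), (val (F l) n).natAbs = n + h l := by
    intro l n
    rw [hval, Int.natAbs_natCast]
  have hmain := hB₀ x (by omega) y hy (univ.image F) (by
      refine card_image_le.trans ?_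
      rw [card_univ, Fintype.card_fin]) (F i) (mem_image_of_mem _ (mem_univ i)) (F j)
      (mem_image_of_mem _ (mem_univ j)) (by
      intro g hg
      rw [mem_image] at hg
      obtain ⟨l, -, rfl⟩ := hg
      refine ⟨one_ne_zero, ?_, ?_⟩
      · show |(1 : ℤ)| ≤ K
        rw [abs_one]
        exact_mod_cast hK
      · show |((h l : ℕ) : ℤ)| ≤ (x : ℤ) ^ K
        rw [Nat.abs_cast]
        exact_mod_cast hsz l) (by
      show |((h i : ℕ) : ℤ)| ≤ K * x
      rw [Nat.abs_cast]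
      exact_mod_cast hi) (by
      show |((h j : ℕ) : ℤ)| ≤ K * x
      rw [Nat.abs_cast]
      exact_mod_cast hj) (by
      show (1 : ℤ) * (h j : ℤ) - 1 * (h i : ℤ) ≠ 0
      intro h0
      apply hij
      apply hinj
      have : (h i : ℤ) = h j := by linarith
      exact_mod_cast this) (by
      intro p hp
      obtain ⟨a, ha⟩ := hadm p hp
      refine ⟨(a : ℤ), ?_⟩
      intro g hg
      rw [mem_image] at hg
      obtain ⟨l, -, rfl⟩ := hg
      rw [hval]
      intro hd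
      exact ha l (by exact_mod_cast hd))
  apply to_set (U := SysA (F i) (F j) (univ.image F) y x r ε) ?_ hmain
  rw [hT]
  ext n
  rw [Set.mem_ofPred_eq, mem_coe, mem_SysA]
  constructor
  · rintro ⟨h1, h2, h3, h4, h5, h6⟩
    refine ⟨⟨h1, h2⟩, by rwa [habs], by rwa [habs], ?_, ?_⟩
    · exact (fac_iff (habs j n) (by omega) _).2 h5
    · intro g hg
      rw [mem_image] at hg
      obtain ⟨l, -, rfl⟩ := hg
      exact ⟨by rw [habs]; exact (h6 l).1, (fac_iff (habs l n) (by omega) _).2 (h6 l).2⟩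
  · rintro ⟨⟨h1, h2⟩, h3, h4, h5, h6⟩
    rw [habs] at h3 h4
    refine ⟨h1, h2, h3, h4, (fac_iff (habs j n) (by omega) _).1 h5, fun l => ?_⟩
    have h7 := h6 (F l) (mem_image_of_mem _ (mem_univ l))
    rw [habs] at h7
    exact ⟨h7.1, (fac_iff (habs l n) (by omega) _).1 h7.2⟩

end Pool.Agent.Results.MP_68a45e_nt.SzemerediTuples
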